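import Pool.Agent.Helper82.IW.Goals

/-! # IW-PC: the smooth coefficients -/

set_option autoImplicit false

open Complex MeasureTheory Set Filter Topology
open scoped ContDiff ComplexConjugate

namespace Pool.Agent.Helper74.IW

open Pool.Agent.Helper82.IW

theorem per_reduce {E : Type*} {f : ℂ → E} (hf : Per f) (z : ℂ) : ∃ w ∈ Q, f w = f z := by
  have h1 : Function.Periodic f 1 := fun z => (hf z).1
  have h2 : Function.Periodic f I := fun z => (hf z).2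
  refine ⟨⟨Int.fract z.re, Int.fract z.im⟩, ?_, ?_⟩
  · unfold Q
    rw [Complex.mem_reProdIm]
    exact ⟨⟨Int.fract_nonneg _, (Int.fract_lt_one _).le⟩, ⟨Int.fract_nonneg _,
      (Int.fract_lt_one _).le⟩⟩
  · have h3 := (h1.int_mul ⌊z.re⌋) (⟨Int.fract z.re, Int.fract z.im⟩ : ℂ)
    have h4 := (h2.int_mul ⌊z.im⌋) ((⟨Int.fract z.re, Int.fract z.im⟩ : ℂ) + ⌊z.re⌋ * 1)
    rw [← h3, ← h4]
    congr 1
    apply Complex.ext
    · simp [Int.fract_add_floor]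
    · simp [Int.fract_add_floor]

theorem bounded {g : ℂ → ℝ} (hg : Continuous g) (hp : Per g) : ∃ K, 0 ≤ K ∧ ∀ z, |g z| ≤ K := by
  have hQ : IsCompact Q := isCompact_Icc.reProdIm isCompact_Icc
  obtain ⟨C, hC⟩ := hQ.exists_bound_of_continuousOn hg.continuousOn
  refine ⟨|C|, abs_nonneg _, fun z => ?_⟩
  obtain ⟨w, hw, hwz⟩ := per_reduce hp z
  rw [← hwz]
  exact (hC w hw).trans (le_abs_self _)

theorem per_fderiv {E : Type*} [NormedAddCommGroup E] [NormedSpace ℝ E] {f : ℂ → E} (hf : Per f)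
    (z : ℂ) : fderiv ℝ f (z + 1) = fderiv ℝ f z ∧ fderiv ℝ f (z + I) = fderiv ℝ f z := by
  constructor
  · rw [← fderiv_comp_add_right]
    congr 1
    funext w
    exact (hf w).1
  · rw [← fderiv_comp_add_right]
    congr 1
    funext w
    exact (hf w).2

theorem bdd_deriv {E : Type*} [NormedAddCommGroup E] [NormedSpace ℝ E] {f : ℂ → E} (hf : SP f) :
    ∃ K, 0 ≤ K ∧ ∀ z, ‖dx f z‖ ≤ K ∧ ‖dy f z‖ ≤ K := by
  have hc : Continuous (fderiv ℝ f) := hf.smooth.continuous_fderiv (by simp)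
  obtain ⟨K1, h1, h1'⟩ := bounded (g := fun z => ‖dx f z‖)
    ((hc.clm_apply continuous_const).norm) (by
      intro z
      simp only [dx, (per_fderiv hf.per z).1, (per_fderiv hf.per z).2, and_self])
  obtain ⟨K2, h2, h2'⟩ := bounded (g := fun z => ‖dy f z‖)
    ((hc.clm_apply continuous_const).norm) (by
      intro z
      simp only [dy, (per_fderiv hf.per z).1, (per_fderiv hf.per z).2, and_self])
  refine ⟨K1 + K2, by positivity, fun z => ⟨?_, ?_⟩⟩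
  · have := h1' z
    rw [abs_of_nonneg (norm_nonneg _)] at this
    linarith
  · have := h2' z
    rw [abs_of_nonneg (norm_nonneg _)] at this
    linarith

theorem norm_Pj (w : ℂ) : ‖Pj w‖ = min ‖w‖ 1 := by
  unfold Pj
  split_ifs with h
  · rw [min_eq_left h]
  · push Not at h
    have h0 : ‖w‖ ≠ 0 := by linarith
    rw [min_eq_right h.le, norm_div, Complex.norm_real, norm_norm, div_self h0]

theorem q_close (w : ℂ) (s δ : ℝ) (h1 : 1 ≤ s) (h2 : ‖w‖ ≤ s) (h3 : s ≤ max 1 ‖w‖ + δ / 4) :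
    ‖s⁻¹ • w‖ ≤ 1 ∧ ‖s⁻¹ • w - Pj w‖ ≤ δ / 4 := by
  have hs : 0 < s := by linarith
  have hsi : 0 < s⁻¹ := inv_pos.2 hs
  have hsi1 : s⁻¹ ≤ 1 := inv_le_one_of_one_le₀ h1
  constructor
  · rw [norm_smul, Real.norm_of_nonneg hsi.le]
    calc s⁻¹ * ‖w‖ ≤ s⁻¹ * s := mul_le_mul_of_nonneg_left h2 hsi.le
      _ = 1 := inv_mul_cancel₀ hs.ne'
  · unfold Pj
    split_ifs with h
    · have e1 : s⁻¹ • w - w = (s⁻¹ - 1) • w := by rw [sub_smul, one_smul]
      rw [e1, norm_smul, Real.norm_eq_abs, abs_of_nonpos (by linarith)]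
      rw [max_eq_left h] at h3
      have e2 : -(s⁻¹ - 1) ≤ s - 1 := by
        have : s⁻¹ * s = 1 := inv_mul_cancel₀ hs.ne'
        nlinarith
      calc -(s⁻¹ - 1) * ‖w‖ ≤ -(s⁻¹ - 1) * 1 := mul_le_mul_of_nonneg_left h (by linarith)
        _ ≤ δ / 4 := by linarith
    · push Not at h
      rw [max_eq_right h.le] at h3
      have h0 : 0 < ‖w‖ := by linarith
      have e1 : s⁻¹ • w - w / (‖w‖ : ℂ) = (s⁻¹ - ‖w‖⁻¹) • w := by
        rw [sub_smul, div_eq_inv_mul, Complex.real_smul, Complex.real_smul]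
        push_cast
        ring
      have e3 : s⁻¹ ≤ ‖w‖⁻¹ := inv_anti₀ h0 h2
      rw [e1, norm_smul, Real.norm_eq_abs, abs_of_nonpos (by linarith)]
      have e4 : -(s⁻¹ - ‖w‖⁻¹) * ‖w‖ = 1 - s⁻¹ * ‖w‖ := by
        have : ‖w‖⁻¹ * ‖w‖ = 1 := inv_mul_cancel₀ h0.ne'
        linarith [this]
      rw [e4]
      have e5 : 1 - s⁻¹ * ‖w‖ = s⁻¹ * (s - ‖w‖) := by
        rw [mul_sub, inv_mul_cancel₀ hs.ne']
      rw [e5]
      calc s⁻¹ * (s - ‖w‖) ≤ 1 * (s - ‖w‖) := mul_le_mul_of_nonneg_right hsi1 (by linarith)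
        _ ≤ δ / 4 := by linarith

theorem sqrtM (r δ : ℝ) (hr : 0 ≤ r) (hδ : 0 < δ) :
    1 ≤ Real.sqrt ((1 + r ^ 2 + Real.sqrt ((r ^ 2 - 1) ^ 2 + δ ^ 2)) / 2) ∧
    r ≤ Real.sqrt ((1 + r ^ 2 + Real.sqrt ((r ^ 2 - 1) ^ 2 + δ ^ 2)) / 2) ∧
    Real.sqrt ((1 + r ^ 2 + Real.sqrt ((r ^ 2 - 1) ^ 2 + δ ^ 2)) / 2) ≤ max 1 r + δ / 4 := by
  set t := Real.sqrt ((r ^ 2 - 1) ^ 2 + δ ^ 2) with ht
  have ht1 : |r ^ 2 - 1| ≤ t := by
    rw [ht, ← Real.sqrt_sq_eq_abs]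
    exact Real.sqrt_le_sqrt (by nlinarith)
  have ht2 : t ≤ |r ^ 2 - 1| + δ := by
    rw [ht]
    apply Real.sqrt_le_iff.2
    refine ⟨by positivity, ?_⟩
    have : |r ^ 2 - 1| ^ 2 = (r ^ 2 - 1) ^ 2 := sq_abs _
    have h3 : 0 ≤ |r ^ 2 - 1| := abs_nonneg _
    nlinarith
  have h1 := le_abs_self (r ^ 2 - 1)
  have h2 := neg_abs_le (r ^ 2 - 1)
  refine ⟨?_, ?_, ?_⟩
  · apply Real.le_sqrt_of_sq_le
    linarith
  · apply Real.le_sqrt_of_sq_le
    linarith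
  · apply Real.sqrt_le_iff.2
    refine ⟨by positivity, ?_⟩
    rcases le_total r 1 with h | h
    · rw [max_eq_left h]
      have h3 : |r ^ 2 - 1| = 1 - r ^ 2 := by
        rw [abs_of_nonpos (by nlinarith)]
        ring
      rw [h3] at ht2
      nlinarith
    · rw [max_eq_right h]
      have h3 : |r ^ 2 - 1| = r ^ 2 - 1 := abs_of_nonneg (by nlinarith)
      rw [h3] at ht2
      nlinarith

theorem PC : S_PC := by
  intro z0 hz e he
  set η : ℝ := min (1 / 2) (e / 4) with hη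
  have hη0 : 0 < η := lt_min (by norm_num) (by linarith)
  have hη1 : η ≤ 1 / 2 := min_le_left _ _
  have hη2 : η ≤ e / 4 := min_le_right _ _
  clear_value η
  -- the radius
  set s : ℂ → ℝ := fun z =>
    Real.sqrt ((1 + ‖z0 z‖ ^ 2 + Real.sqrt ((‖z0 z‖ ^ 2 - 1) ^ 2 + e ^ 2)) / 2) with hs
  have hs0 : ∀ z, 1 ≤ s z ∧ ‖z0 z‖ ≤ s z ∧ s z ≤ max 1 ‖z0 z‖ + e / 4 := fun z =>
    sqrtM _ e (norm_nonneg _) he
  set q : ℂ → ℂ := fun z => (s z)⁻¹ • z0 z with hq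
  have hq0 : ∀ z, ‖q z‖ ≤ 1 ∧ ‖q z - Pj (z0 z)‖ ≤ e / 4 := fun z =>
    q_close _ _ e (hs0 z).1 (hs0 z).2.1 (hs0 z).2.2
  have hn : ContDiff ℝ ∞ fun z => ‖z0 z‖ ^ 2 := hz.smooth.norm_sq ℝ
  have hr : ContDiff ℝ ∞ fun z => Real.sqrt ((‖z0 z‖ ^ 2 - 1) ^ 2 + e ^ 2) := by
    apply ContDiff.sqrt (((hn.sub contDiff_const).pow 2).add contDiff_const)
    intro z
    positivity
  have hss : ContDiff ℝ ∞ s := by
    apply ContDiff.sqrt (((contDiff_const.add hn).add hr).div_const 2)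
    intro z
    positivity
  have hqs : ContDiff ℝ ∞ q :=
    (hss.inv fun z => by linarith [(hs0 z).1]).smul hz.smooth
  have hqp : Per q := by
    intro z
    simp only [hq, hs, (hz.per z).1, (hz.per z).2, and_self]
  -- the constant
  set a : ℝ := (1 - η) / Real.sqrt (1 + η ^ 2) with ha
  have hsq : 0 < Real.sqrt (1 + η ^ 2) := Real.sqrt_pos.2 (by positivity)
  have hsq1 : 1 ≤ Real.sqrt (1 + η ^ 2) := Real.le_sqrt_of_sq_le (by nlinarith)
  have hsqs : Real.sqrt (1 + η ^ 2) ^ 2 = 1 + η ^ 2 := Real.sq_sqrt (by positivity)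
  have hsq2 : Real.sqrt (1 + η ^ 2) ≤ 1 + η := by
    apply Real.sqrt_le_iff.2
    exact ⟨by linarith, by nlinarith⟩
  have ha0 : 0 ≤ a := div_nonneg (by linarith) hsq.le
  have ha1 : a ≤ 1 := by
    rw [ha, div_le_one hsq]
    linarith
  have ha2 : 1 - 2 * η ≤ a := by
    rw [ha, le_div_iff₀ hsq]
    calc (1 - 2 * η) * Real.sqrt (1 + η ^ 2) ≤ (1 - 2 * η) * (1 + η) :=
          mul_le_mul_of_nonneg_left hsq2 (by linarith)
      _ ≤ 1 - η := by nlinarith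
  have ha3 : a * Real.sqrt (1 + η ^ 2) = 1 - η := by
    rw [ha, div_mul_cancel₀ _ hsq.ne']
  have hp : SP fun z => a • q z := by
    refine ⟨hqs.const_smul a, fun z => ?_⟩
    simp only [(hqp z).1, (hqp z).2, and_self]
  have hc : SP fun z => a * Real.sqrt (‖q z‖ ^ 2 + η ^ 2) := by
    refine ⟨contDiff_const.mul (ContDiff.sqrt ((hqs.norm_sq ℝ).add contDiff_const) ?_),
      fun z => ?_⟩
    · intro z
      positivity
    · simp only [(hqp z).1, (hqp z).2, and_self]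
  obtain ⟨K1, hK1, hK1'⟩ := bdd_deriv hp
  obtain ⟨K2, hK2, hK2'⟩ := bdd_deriv hc
  refine ⟨η, K1 + K2, fun z => a • q z, fun z => a * Real.sqrt (‖q z‖ ^ 2 + η ^ 2), hη0,
    by positivity, hp, hc, ?_, ?_, ?_, ?_, ?_⟩
  · intro z
    rw [norm_smul, Real.norm_of_nonneg ha0]
    apply mul_le_mul_of_nonneg_left _ ha0
    apply Real.le_sqrt_of_sq_le
    nlinarith
  · intro z
    show a * Real.sqrt (‖q z‖ ^ 2 + η ^ 2) ≤ 1 - η
    rw [← ha3]
    apply mul_le_mul_of_nonneg_left _ ha0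
    apply Real.sqrt_le_sqrt
    have h1 := (hq0 z).1
    have h2 := norm_nonneg (q z)
    nlinarith
  · intro z
    have h1 := hK1' z
    have h2 := hK2' z
    rw [Real.norm_eq_abs, Real.norm_eq_abs] at h2
    exact ⟨by linarith [h2.1], by linarith [h2.2], by linarith [h1.1], by linarith [h1.2]⟩
  · intro z
    show |a * Real.sqrt (‖q z‖ ^ 2 + η ^ 2) - min ‖z0 z‖ 1| ≤ e
    rw [← norm_Pj]
    have h1 := (hq0 z).1
    have h2 := (hq0 z).2
    have h3 := norm_nonneg (q z)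
    have h4 : |‖q z‖ - ‖Pj (z0 z)‖| ≤ ‖q z - Pj (z0 z)‖ := abs_norm_sub_norm_le _ _
    have h5 : Real.sqrt (‖q z‖ ^ 2 + η ^ 2) ≤ ‖q z‖ + η := by
      apply Real.sqrt_le_iff.2
      exact ⟨by linarith, by nlinarith⟩
    have h6 : ‖q z‖ ≤ Real.sqrt (‖q z‖ ^ 2 + η ^ 2) := by
      apply Real.le_sqrt_of_sq_le
      nlinarith
    have h7 : a * Real.sqrt (‖q z‖ ^ 2 + η ^ 2) ≤ ‖q z‖ + η := by
      calc a * Real.sqrt (‖q z‖ ^ 2 + η ^ 2) ≤ 1 * Real.sqrt (‖q z‖ ^ 2 + η ^ 2) :=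
            mul_le_mul_of_nonneg_right ha1 (Real.sqrt_nonneg _)
        _ ≤ ‖q z‖ + η := by linarith
    have h8 : ‖q z‖ - 2 * η ≤ a * Real.sqrt (‖q z‖ ^ 2 + η ^ 2) := by
      calc ‖q z‖ - 2 * η ≤ (1 - 2 * η) * ‖q z‖ := by nlinarith
        _ ≤ a * ‖q z‖ := mul_le_mul_of_nonneg_right ha2 h3
        _ ≤ a * Real.sqrt (‖q z‖ ^ 2 + η ^ 2) := mul_le_mul_of_nonneg_left h6 ha0
    rw [abs_le] at h4 ⊢
    constructor <;> linarith [h4.1, h4.2]
  · intro z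
    show ‖a • q z - Pj (z0 z)‖ ≤ e
    have h1 := (hq0 z).1
    have h2 := (hq0 z).2
    have h3 := norm_nonneg (q z)
    have e1 : a • q z - Pj (z0 z) = (a - 1) • q z + (q z - Pj (z0 z)) := by
      rw [sub_smul, one_smul]
      ring
    rw [e1]
    refine (norm_add_le _ _).trans ?_
    rw [norm_smul, Real.norm_eq_abs, abs_of_nonpos (by linarith)]
    have h5 : -(a - 1) * ‖q z‖ ≤ 2 * η := by
      calc -(a - 1) * ‖q z‖ ≤ -(a - 1) * 1 := mul_le_mul_of_nonneg_left h1 (by linarith)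
        _ ≤ 2 * η := by linarith
    linarith

end Pool.Agent.Helper74.IW
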